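import Pool.Agent.MP_5c28a4_al.H68S.Spec

/-!
A Laurent identity makes powers unipotent.
-/

set_option autoImplicit false

namespace Pool.Agent.MP_5c28a4_al.H89S.StrA

namespace StrAl1

open Multiplicative

/-- the divisors of the elements `m (t ^ L - 1) ^ e` -/
def dv {R : Type} [CommRing R] (t : R) : Submonoid R where
  carrier := {x | ∃ m L e : ℕ, 0 < m ∧ 0 < L ∧ x ∣ (m : R) * (t ^ L - 1) ^ e}
  one_mem' := ⟨1, 1, 0, one_pos, one_pos, one_dvd _⟩
  mul_mem' := by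
    rintro x y ⟨m, L, e, h1, h2, h3⟩ ⟨m', L', e', h1', h2', h3'⟩
    refine ⟨m * m', L * L', e + e', Nat.mul_pos h1 h1', Nat.mul_pos h2 h2',
      (mul_dvd_mul h3 h3').trans ?_⟩
    rw [Nat.cast_mul, pow_add, mul_mul_mul_comm]
    refine mul_dvd_mul_left _ (mul_dvd_mul (pow_dvd_pow_of_dvd ?_ _) (pow_dvd_pow_of_dvd ?_ _))
    · rw [pow_mul]
      exact sub_one_dvd_pow_sub_one _ _
    · rw [mul_comm L, pow_mul]
      exact sub_one_dvd_pow_sub_one _ _

theorem key {R : Type} [CommRing R] (u : Multiplicative ℤ →* R) (f : ℤ →₀ ℤ) (hf : f ≠ 0)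
    (I : Ideal R) (hI : ∀ j : ℕ, (f.sum fun i c => c • u (ofAdd i) ^ j) ∈ I) :
    ∃ m L e : ℕ, 0 < m ∧ 0 < L ∧ (m : R) * (u (ofAdd 1) ^ L - 1) ^ e ∈ I := by
  by_contra hc
  have hd : Disjoint (I : Set R) (dv (u (ofAdd 1))) := by
    rw [Set.disjoint_left]
    rintro x hx ⟨m, L, e, h1, h2, h3⟩
    exact hc ⟨m, L, e, h1, h2, I.mem_of_dvd h3 hx⟩
  obtain ⟨P, hP, hIP, hPd⟩ := Ideal.exists_le_prime_disjoint I _ hd
  rw [Set.disjoint_left] at hPd
  let ψ : Multiplicative ℤ →* R ⧸ P := (Ideal.Quotient.mk P).toMonoidHom.comp u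
  have hψ : ∀ x, ψ x = Ideal.Quotient.mk P (u x) := fun _ => rfl
  have h1 : ∀ i i' : ℤ, i < i' → ψ (ofAdd i) ≠ ψ (ofAdd i') := by
    intro i i' h h'
    obtain ⟨L, rfl⟩ := Int.le.dest h.le
    have h2 : ψ (ofAdd 1) ^ L = 1 := by
      have h3 := congrArg (ψ (ofAdd (-i)) * ·) h'
      simp only [← map_mul, ← ofAdd_add, neg_add_cancel, neg_add_cancel_left, ofAdd_zero,
        map_one] at h3
      rw [h3, ← map_pow, ← ofAdd_nsmul, nsmul_eq_mul, mul_one]
    refine hPd (a := u (ofAdd 1) ^ L - 1) ?_ ⟨1, L, 1, one_pos, by omega, by simp⟩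
    rw [SetLike.mem_coe, ← Ideal.Quotient.eq_zero_iff_mem, map_sub, map_pow, ← hψ, h2, map_one,
      sub_self]
  have h2 : Function.Injective fun i : ℤ => powersHom (R ⧸ P) (ψ (ofAdd i)) := by
    intro i i' h
    have h3 := (powersHom (R ⧸ P)).injective h
    rcases lt_trichotomy i i' with h4 | h4 | h4
    · exact absurd h3 (h1 _ _ h4)
    · exact h4
    · exact absurd h3.symm (h1 _ _ h4)
  obtain ⟨i, hi⟩ := Finsupp.support_nonempty_iff.2 hf
  have h3 := linearIndependent_iff'.1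
    ((linearIndependent_monoidHom (Multiplicative ℕ) (R ⧸ P)).comp _ h2) f.support
    (fun i => (f i : R ⧸ P)) (funext fun j => by
      have h4 := Ideal.Quotient.eq_zero_iff_mem.2 (hIP (hI j.toAdd))
      simpa [Finsupp.sum, hψ] using h4) i hi
  refine hPd (a := ((f i).natAbs : R)) ?_
    ⟨(f i).natAbs, 1, 0, Int.natAbs_pos.2 (Finsupp.mem_support_iff.1 hi), one_pos, by simp⟩
  rw [SetLike.mem_coe, ← Ideal.Quotient.eq_zero_iff_mem, map_natCast, ← Int.cast_natCast]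
  rcases Int.natAbs_eq (f i) with h | h
  · rw [← h, h3]
  · rw [← neg_eq_zero, ← Int.cast_neg, ← h, h3]

end StrAl1

open StrAl1 Multiplicative in
theorem al1 : SAl1 := by
  intro f hf
  obtain ⟨m, L, e, h1, h2, h3⟩ := key (MonoidAlgebra.of ℤ (Multiplicative ℤ)) f hf
    (Ideal.span (Set.range fun j : ℕ =>
      f.sum fun i c => c • MonoidAlgebra.of ℤ (Multiplicative ℤ) (ofAdd i) ^ j))
    fun j => Ideal.subset_span ⟨j, rfl⟩
  refine ⟨m, L, e, h1, h2, fun Q M _ _ σ h z => ?_⟩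
  let ev := Representation.asAlgebraHom (k := ℤ) (V := M) (σ.comp (zpowersHom Q z))
  have hev : ∀ i : ℤ, ev (MonoidAlgebra.of ℤ (Multiplicative ℤ) (ofAdd i)) = σ (z ^ i) :=
    fun i => Representation.asAlgebraHom_of _ _
  have h4 : Ideal.span (Set.range fun j : ℕ =>
      f.sum fun i c => c • MonoidAlgebra.of ℤ (Multiplicative ℤ) (ofAdd i) ^ j) ≤
      RingHom.ker ev := by
    rw [Ideal.span_le]
    rintro _ ⟨j, rfl⟩
    rw [SetLike.mem_coe, RingHom.mem_ker, ← h (z ^ j), pe]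
    simp only [Finsupp.sum]
    rw [map_sum]
    refine Finset.sum_congr rfl fun i _ => ?_
    rw [map_zsmul, map_pow, hev, ← map_pow, ← zpow_natCast, ← zpow_natCast, ← zpow_mul,
      ← zpow_mul, mul_comm]
  have h5 := RingHom.mem_ker.1 (h4 h3)
  rw [map_mul, map_natCast, map_pow, map_sub, map_pow, hev, map_one, zpow_one, ← map_pow] at h5
  rw [natCast_zsmul, nsmul_eq_mul, h5]

end Pool.Agent.MP_5c28a4_al.H89S.StrA
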